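import Pool.Agent.H81.LE.Stm

set_option autoImplicit false

/-! Project LE (helper81), module case1 (helper97): many children with many unpopular colours. -/

namespace Pool.Agent.H97.LE

open Finset Pool.Agent.H81.LE

section

variable {V : Type} [DecidableEq V]

lemma star_image {X : Finset V} {A : V → Finset ℕ} {M : Finset (V × ℕ)} (h : IsStar X A M) :
    M.image Prod.fst = X := by
  ext v
  rw [mem_image]
  constructor
  · rintro ⟨x, hx, rfl⟩
    exact (h.mem x hx).1
  · intro hv
    obtain ⟨c, hc⟩ := h.cover v hv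
    exact ⟨_, hc, rfl⟩

lemma star_colors {X : Finset V} {A : V → Finset ℕ} {M : Finset (V × ℕ)} (h : IsStar X A M) :
    (M.image Prod.snd).card = X.card := by
  have h1 : (M.image Prod.snd).card = M.card :=
    card_image_of_injOn fun x hx y hy e => h.col x hx y hy e
  have h2 : (M.image Prod.fst).card = M.card :=
    card_image_of_injOn fun x hx y hy e => h.row x hx y hy e
  rw [h1, ← h2, star_image h]

lemma star_union {X Y : Finset V} {A B G : V → Finset ℕ} {M M' : Finset (V × ℕ)}
    (h : IsStar X A M) (h' : IsStar Y B M') (hXY : Disjoint X Y)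
    (hc : ∀ x ∈ M', x.2 ∉ M.image Prod.snd)
    (hA : ∀ v ∈ X, A v ⊆ G v) (hB : ∀ v ∈ Y, B v ⊆ G v) : IsStar (X ∪ Y) G (M ∪ M') := by
  have hr : ∀ x ∈ M, ∀ y ∈ M', x.1 ≠ y.1 := by
    intro x hx y hy e
    exact Finset.disjoint_left.1 hXY (h.mem x hx).1 (e ▸ (h'.mem y hy).1)
  have hc' : ∀ x ∈ M, ∀ y ∈ M', x.2 ≠ y.2 := by
    intro x hx y hy e
    exact hc y hy (mem_image.2 ⟨x, hx, e⟩)
  refine ⟨?_, ?_, ?_, ?_⟩
  · intro x hx
    rcases mem_union.1 hx with hx | hx
    · exact ⟨mem_union_left _ (h.mem x hx).1, hA _ (h.mem x hx).1 (h.mem x hx).2⟩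
    · exact ⟨mem_union_right _ (h'.mem x hx).1, hB _ (h'.mem x hx).1 (h'.mem x hx).2⟩
  · intro v hv
    rcases mem_union.1 hv with hv | hv
    · obtain ⟨c, hc⟩ := h.cover v hv
      exact ⟨c, mem_union_left _ hc⟩
    · obtain ⟨c, hc⟩ := h'.cover v hv
      exact ⟨c, mem_union_right _ hc⟩
  · intro x hx y hy e
    rcases mem_union.1 hx with hx | hx <;> rcases mem_union.1 hy with hy | hy
    · exact h.row x hx y hy e
    · exact absurd e (hr x hx y hy)
    · exact absurd e.symm (hr y hy x hx)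
    · exact h'.row x hx y hy e
  · intro x hx y hy e
    rcases mem_union.1 hx with hx | hx <;> rcases mem_union.1 hy with hy | hy
    · exact h.col x hx y hy e
    · exact absurd e (hc' x hx y hy)
    · exact absurd e.symm (hc' y hy x hx)
    · exact h'.col x hx y hy e

lemma card_sdiff_ge (X U : Finset ℕ) : X.card ≤ (X \ U).card + U.card := by
  have h1 : X ⊆ (X \ U) ∪ U := by
    intro x hx
    by_cases h : x ∈ U
    · exact mem_union_right _ h
    · exact mem_union_left _ (mem_sdiff.2 ⟨hx, h⟩)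
  exact (card_le_card h1).trans (card_union_le _ _)

omit [DecidableEq V] in
/-- the average of the `b w` -/
lemma many {S : Finset V} {L : V → Finset ℕ} {U : Finset ℕ} {D q : ℕ} (hq : 0 < q) (hU : U.card = q)
    (hS : S.card ≤ D)
    (hm : ∀ c ∈ U, D ≤ 200 * (S.filter (fun w => c ∉ L w)).card) :
    D ≤ 400 * (S.filter (fun w => q ≤ 400 * (U \ L w).card)).card := by
  have h1 : ∑ w ∈ S, (U \ L w).card = ∑ c ∈ U, (S.filter (fun w => c ∉ L w)).card := by
    have e1 : ∀ w, (U \ L w).card = ∑ c ∈ U, if c ∉ L w then 1 else 0 := by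
      intro w
      rw [← card_filter]
      congr 1
      ext c
      simp only [mem_sdiff, mem_filter]
    have e2 : ∀ c, (S.filter (fun w => c ∉ L w)).card = ∑ w ∈ S, if c ∉ L w then 1 else 0 := by
      intro c
      rw [card_filter]
    simp_rw [e1, e2]
    exact sum_comm
  have h2 : U.card * D ≤ 200 * ∑ c ∈ U, (S.filter (fun w => c ∉ L w)).card := by
    rw [mul_sum, ← smul_eq_mul, ← sum_const]
    exact sum_le_sum hm
  have h3 : 400 * ∑ w ∈ S, (U \ L w).card ≤
      (S.filter (fun w => q ≤ 400 * (U \ L w).card)).card * (400 * q) + D * q := by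
    rw [mul_sum, ← sum_filter_add_sum_filter_not S (fun w => q ≤ 400 * (U \ L w).card)]
    refine add_le_add ?_ ?_
    · rw [← smul_eq_mul, ← sum_const]
      refine sum_le_sum fun w _ => Nat.mul_le_mul_left _ ?_
      rw [← hU]
      exact card_le_card sdiff_subset
    · have h4 : ∑ w ∈ S.filter (fun w => ¬ q ≤ 400 * (U \ L w).card), 400 * (U \ L w).card ≤
          (S.filter (fun w => ¬ q ≤ 400 * (U \ L w).card)).card * q := by
        rw [← smul_eq_mul, ← sum_const]
        refine sum_le_sum fun w hw => ?_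
        have := (mem_filter.1 hw).2
        omega
      refine h4.trans (Nat.mul_le_mul_right _ ?_)
      exact (card_le_card (filter_subset _ _)).trans hS
  rw [h1] at h3
  rw [hU] at h2
  have h5 : q * D ≤ q * (400 * (S.filter (fun w => q ≤ 400 * (U \ L w).card)).card) := by
    have e1 : q * (400 * (S.filter (fun w => q ≤ 400 * (U \ L w).card)).card) =
      (S.filter (fun w => q ≤ 400 * (U \ L w).card)).card * (400 * q) := by ring
    rw [e1]
    have e2 : D * q = q * D := by ring
    rw [e2] at h3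
    omega
  exact Nat.le_of_mul_le_mul_left h5 hq

end

theorem t_case1 (h1 : S_rows) (h2 : S_greedy) : S_case1 := by
  intro V _ S L T C D N hN hND hL hT hC hSC hDS hcase
  obtain ⟨pop, hpop⟩ : ∃ pop, pop = popular S L D := ⟨_, rfl⟩
  rw [← hpop] at hcase
  obtain ⟨q, hq⟩ : ∃ q, q = D / 8000 := ⟨_, rfl⟩
  have hq1 : 8000 * q ≤ D := by omega
  have hq2 : D ≤ 8000 * q + 7999 := by omega
  rw [← hq] at hcase
  obtain ⟨R₁, hR1, hR1c⟩ := exists_subset_card_eq hcase
  have hR1S : R₁ ⊆ S := hR1.trans (filter_subset _ _)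
  have hθ : (0 : ℝ) ≤ 1 / (N : ℝ) := by positivity
  -- step 1
  have s1 : Spread (1 / (N : ℝ)) (IsStar R₁ (fun v => ((L v \ pop) \ C) \ T v)) := by
    refine h2 V N R₁ _ hN fun v hv => ?_
    have hv' := mem_filter.1 (hR1 hv)
    have e1 := card_sdiff_ge ((L v \ pop) \ C) (T v)
    have e2 := hT v hv'.1
    have e3 := hv'.2
    rw [hR1c]
    omega
  -- facts for a fixed `M₁`
  have key : ∀ M₁, IsStar R₁ (fun v => ((L v \ pop) \ C) \ T v) M₁ →
      D ≤ 400 * (S.filter (fun w => q ≤ 400 * (M₁.image Prod.snd \ L w).card)).card := by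
    intro M₁ hM
    have hU : (M₁.image Prod.snd).card = q := (star_colors hM).trans hR1c
    refine many (by omega) hU (by omega) fun c hc => ?_
    obtain ⟨x, hx, rfl⟩ := mem_image.1 hc
    obtain ⟨hx1, hx2⟩ := hM.mem x hx
    simp only [mem_sdiff] at hx2
    obtain ⟨⟨⟨hx3, hx4⟩, hx5⟩, hx6⟩ := hx2
    have h3 : ¬ 99 * D ≤ 100 * (S.filter (fun v => x.2 ∈ L v)).card := by
      intro h
      apply hx4
      rw [hpop, popular, mem_filter]
      exact ⟨mem_biUnion.2 ⟨x.1, hR1S hx1, hx3⟩, h⟩
    have h4 : (S.filter (fun v => x.2 ∈ L v)).card + (S.filter (fun v => x.2 ∉ L v)).card = S.card :=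
      card_filter_add_card_filter_not _
    omega
  -- steps 2 and 3
  have s23 : ∀ M₁, IsStar R₁ (fun v => ((L v \ pop) \ C) \ T v) M₁ →
      Spread (1 / (N : ℝ)) (fun K => ∃ M₂ M₃,
        IsStar (S \ (R₁ ∪ (S.filter (fun w => q ≤ 400 * (M₁.image Prod.snd \ L w).card) \ R₁)))
          (fun v => ((L v \ C) \ T v) \ M₁.image Prod.snd) M₂ ∧
        IsStar (S.filter (fun w => q ≤ 400 * (M₁.image Prod.snd \ L w).card) \ R₁)
          (fun v => (((L v \ C) \ T v) \ M₁.image Prod.snd) \ M₂.image Prod.snd) M₃ ∧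
        K = M₂ ∪ M₃) := by
    intro M₁ hM
    have hk := key M₁ hM
    have hU : (M₁.image Prod.snd).card = q := (star_colors hM).trans hR1c
    obtain ⟨U₁, hU1⟩ : ∃ U₁, U₁ = M₁.image Prod.snd := ⟨_, rfl⟩
    rw [← hU1] at hk hU ⊢
    obtain ⟨W, hW⟩ : ∃ W, W = S.filter (fun w => q ≤ 400 * (U₁ \ L w).card) := ⟨_, rfl⟩
    rw [← hW] at hk ⊢
    have hWS : W ⊆ S := by rw [hW]; exact filter_subset _ _
    obtain ⟨R₂, hR2⟩ : ∃ R₂, R₂ = W \ R₁ := ⟨_, rfl⟩
    rw [← hR2]
    have hR2S : R₂ ⊆ S := by rw [hR2]; exact sdiff_subset.trans hWS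
    have hdis : Disjoint R₁ R₂ := by rw [hR2]; exact disjoint_sdiff
    have hR2c : W.card ≤ R₂.card + q := by
      have : W ⊆ R₂ ∪ R₁ := by
        intro x hx
        by_cases h : x ∈ R₁
        · exact mem_union_right _ h
        · exact mem_union_left _ (hR2 ▸ mem_sdiff.2 ⟨hx, h⟩)
      have := (card_le_card this).trans (card_union_le _ _)
      omega
    have hO : (S \ (R₁ ∪ R₂)).card + q + R₂.card = S.card := by
      have h3 := card_sdiff_add_card_eq_card (union_subset hR1S hR2S)
      rw [card_union_of_disjoint hdis, hR1c] at h3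
      omega
    refine h1 (V × ℕ) (1 / (N : ℝ)) (fun x => x.1 ∈ S \ (R₁ ∪ R₂)) _
      (fun M₂ M₃ => IsStar R₂ (fun v => (((L v \ C) \ T v) \ U₁) \ M₂.image Prod.snd) M₃) hθ
      (fun M hM x hx => (hM.mem x hx).1) ?_ ?_ ?_
    · intro M M' _ hM' x hx h
      have h3 := (hM'.mem x hx).1
      exact (mem_sdiff.1 h).2 (mem_union_right _ h3)
    · refine h2 V N _ _ hN fun v hv => ?_
      have hvS := (mem_sdiff.1 hv).1
      have e1 := card_sdiff_ge ((L v \ C) \ T v) U₁
      have e2 := card_sdiff_ge (L v \ C) (T v)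
      have e3 := card_sdiff_ge (L v) C
      have e4 := hT v hvS
      have e5 := hL v hvS
      omega
    · intro M₂ hM₂
      refine h2 V N _ _ hN fun w hw => ?_
      have hwS := hR2S hw
      have hwW : q ≤ 400 * (U₁ \ L w).card := by
        rw [hR2, mem_sdiff, hW, mem_filter] at hw
        exact hw.1.2
      have hU2 : (M₂.image Prod.snd).card = (S \ (R₁ ∪ R₂)).card := star_colors hM₂
      have e0 := card_sdiff_ge (((L w \ C) \ T w) \ U₁) (M₂.image Prod.snd)
      have e1 : ((L w \ C) \ T w).card ≤ (((L w \ C) \ T w) \ U₁).card + (U₁ ∩ L w).card := by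
        have : (L w \ C) \ T w ⊆ (((L w \ C) \ T w) \ U₁) ∪ (U₁ ∩ L w) := by
          intro x hx
          by_cases h : x ∈ U₁
          · refine mem_union_right _ (mem_inter.2 ⟨h, ?_⟩)
            exact (mem_sdiff.1 (mem_sdiff.1 hx).1).1
          · exact mem_union_left _ (mem_sdiff.2 ⟨hx, h⟩)
        exact (card_le_card this).trans (card_union_le _ _)
      have e6 : (U₁ \ L w).card + (U₁ ∩ L w).card = U₁.card := card_sdiff_add_card_inter _ _
      have e2 := card_sdiff_ge (L w \ C) (T w)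
      have e3 := card_sdiff_ge (L w) C
      have e4 := hT w hwS
      have e5 := hL w hwS
      omega
  -- composition
  refine (h1 (V × ℕ) (1 / (N : ℝ)) (fun x => x.1 ∈ R₁) _ _ hθ
    (fun M hM x hx => (hM.mem x hx).1) ?_ s1 s23).mono hθ le_rfl ?_
  · rintro M₁ K - ⟨M₂, M₃, hM₂, hM₃, rfl⟩ x hx h
    rcases mem_union.1 hx with hx | hx
    · exact (mem_sdiff.1 (hM₂.mem x hx).1).2 (mem_union_left _ h)
    · exact (mem_sdiff.1 (hM₃.mem x hx).1).2 h
  · rintro K ⟨M₁, K', hM₁, ⟨M₂, M₃, hM₂, hM₃, rfl⟩, rfl⟩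
    have u1 := star_union (G := fun v => (L v \ C) \ T v) hM₂ hM₃ ?_ ?_ ?_ ?_
    · have u2 := star_union (G := fun v => (L v \ C) \ T v) hM₁ u1 ?_ ?_ ?_ ?_
      · have e : R₁ ∪ ((S \ (R₁ ∪ (S.filter (fun w => q ≤ 400 * (M₁.image Prod.snd \ L w).card) \ R₁))) ∪
            (S.filter (fun w => q ≤ 400 * (M₁.image Prod.snd \ L w).card) \ R₁)) = S := by
          ext v
          simp only [mem_union, mem_sdiff, mem_filter]
          constructor
          · rintro (h | ⟨h, -⟩ | ⟨⟨h, -⟩, -⟩)
            · exact hR1S h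
            · exact h
            · exact h
          · intro h
            by_cases h' : v ∈ R₁
            · exact Or.inl h'
            · by_cases h'' : q ≤ 400 * (M₁.image Prod.snd \ L v).card
              · exact Or.inr (Or.inr ⟨⟨h, h''⟩, h'⟩)
              · refine Or.inr (Or.inl ⟨h, ?_⟩)
                rintro (h3 | h3)
                · exact h' h3
                · exact h'' h3.1.2
        rw [e] at u2
        exact u2
      · rw [Finset.disjoint_left]
        intro v hv h
        rcases mem_union.1 h with h | h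
        · exact (mem_sdiff.1 h).2 (mem_union_left _ hv)
        · exact (mem_sdiff.1 h).2 hv
      · intro x hx
        rcases mem_union.1 hx with hx | hx
        · exact (mem_sdiff.1 (hM₂.mem x hx).2).2
        · exact (mem_sdiff.1 (mem_sdiff.1 (hM₃.mem x hx).2).1).2
      · intro v _ c hc
        simp only [mem_sdiff] at hc ⊢
        exact ⟨⟨hc.1.1.1, hc.1.2⟩, hc.2⟩
      · intro v _
        exact Finset.Subset.refl _
    · rw [Finset.disjoint_left]
      intro v hv h
      exact (mem_sdiff.1 hv).2 (mem_union_right _ h)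
    · intro x hx
      exact (mem_sdiff.1 (hM₃.mem x hx).2).2
    · intro v _
      exact sdiff_subset
    · intro v _
      exact sdiff_subset.trans sdiff_subset

end Pool.Agent.H97.LE
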